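import Pool.Agent.H40.Contact

open Pool.Agent.H40.Con in
theorem Pool.Agent.Results.MP_2fbd40_lc.NotDefinable.result :
    ∀ n : ℕ, 3 ≤ n → ∀ φ : lang.Formula (Fin n),
      ∃ (X : Type) (_ : TopologicalSpace X), Nonempty X ∧ CSemiregular X ∧
        ∃ a : Fin n → RC X, ¬ (φ.Realize a ↔ (⋂ i, (a i).1).Nonempty) :=
  Pool.Agent.H40.Con.not_definable
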